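import Pool.Agent.Helper24.AL.St
import Pool.Agent.Helper28.PC.N3
import Pool.Agent.Helper56.SW.Basic
import Pool.Agent.Helper28.SP.M_LEVEL

/-!
# Project AL, module BAD
-/

set_option autoImplicit false

namespace Pool.Agent.Helper8.AL

open Finset
open Pool.Agent.Helper24.AL
open Pool.Agent.Helper56.SW (τ Γ I bx E Rel N Nq)

private theorem N_mono_BAD (c : ℕ) (a b : ℤ) (r : ℕ) {A B A' B' : ℕ} (hA : A ≤ A') (hB : B ≤ B') :
    N c a b r A B ≤ N c a b r A' B' := by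
  classical
  unfold N
  refine Finset.card_le_card ?_
  refine Finset.filter_subset_filter _ ?_
  intro l hl
  rw [Pool.Agent.Helper56.SW.mem_bx] at hl ⊢
  refine ⟨hl.1, fun p hp => ?_⟩
  have h := hl.2 p hp
  simp only [I, Finset.mem_Icc] at h ⊢
  have hA' : (A : ℤ) ≤ A' := by exact_mod_cast hA
  have hB' : (B : ℤ) ≤ B' := by exact_mod_cast hB
  omega

private theorem clog_BAD (A : ℕ) (hA : 1 ≤ A) : A ≤ 2 ^ Nat.clog 2 A ∧ 2 ^ Nat.clog 2 A ≤ 2 * A := by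
  refine ⟨Nat.le_pow_clog (by norm_num) A, ?_⟩
  rcases Nat.lt_or_ge 1 A with h | h
  · have h1 := Nat.pow_pred_clog_lt_self (b := 2) (by norm_num) h
    have h2 : 0 < Nat.clog 2 A := Nat.clog_pos (by norm_num) h
    obtain ⟨m, hm⟩ : ∃ m, Nat.clog 2 A = m + 1 := ⟨Nat.clog 2 A - 1, by omega⟩
    rw [hm] at h1 ⊢
    simp only [Nat.pred_succ] at h1
    rw [pow_succ]
    omega
  · have : A = 1 := by omega
    subst this
    simp

private theorem count_BAD (s : ℝ) (hs : 0 < s) : ∃ C : ℝ, 0 < C ∧ ∀ e : ℕ, 1 ≤ e →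
    (((Nat.clog 2 e + 1 : ℕ) : ℝ)) ^ 2 ≤ C * (e : ℝ) ^ s := by
  have hl2 : 0 < Real.log 2 := Real.log_pos (by norm_num)
  refine ⟨(1 / (s / 2 * Real.log 2) + 2) ^ 2, by positivity, ?_⟩
  intro e he
  have heR : (1 : ℝ) ≤ e := by exact_mod_cast he
  have he0 : (0 : ℝ) < e := by linarith
  have h1 : (2 : ℝ) ^ Nat.clog 2 e ≤ 2 * e := by exact_mod_cast (clog_BAD e he).2
  have h2 : (Nat.clog 2 e : ℝ) * Real.log 2 ≤ Real.log 2 + Real.log e := by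
    have := Real.log_le_log (by positivity) h1
    rw [Real.log_pow, Real.log_mul (by norm_num) he0.ne'] at this
    exact this
  have h3 : Real.log e ≤ (e : ℝ) ^ (s / 2) / (s / 2) := Real.log_le_rpow_div he0.le (by linarith)
  have h4 : (1 : ℝ) ≤ (e : ℝ) ^ (s / 2) := Real.one_le_rpow heR (by linarith)
  have h5 : (Nat.clog 2 e : ℝ) ≤ 1 + Real.log e / Real.log 2 := by
    have : (Nat.clog 2 e : ℝ) ≤ (Real.log 2 + Real.log e) / Real.log 2 := by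
      rw [le_div_iff₀ hl2]; exact h2
    rwa [add_div, div_self hl2.ne'] at this
  have h6 : Real.log e / Real.log 2 ≤ 1 / (s / 2 * Real.log 2) * (e : ℝ) ^ (s / 2) := by
    rw [div_le_iff₀ hl2]
    calc Real.log e ≤ (e : ℝ) ^ (s / 2) / (s / 2) := h3
      _ = 1 / (s / 2 * Real.log 2) * (e : ℝ) ^ (s / 2) * Real.log 2 := by
          field_simp
  have h7 : ((Nat.clog 2 e + 1 : ℕ) : ℝ) ≤ (1 / (s / 2 * Real.log 2) + 2) * (e : ℝ) ^ (s / 2) := by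
    push_cast
    nlinarith
  calc (((Nat.clog 2 e + 1 : ℕ) : ℝ)) ^ 2 ≤
      ((1 / (s / 2 * Real.log 2) + 2) * (e : ℝ) ^ (s / 2)) ^ 2 :=
        pow_le_pow_left₀ (by positivity) h7 2
    _ = (1 / (s / 2 * Real.log 2) + 2) ^ 2 * (e : ℝ) ^ s := by
        rw [mul_pow, ← Real.rpow_natCast ((e : ℝ) ^ (s / 2)) 2, ← Real.rpow_mul he0.le]
        norm_num

theorem hBAD (hAVG : StAVG) : StBAD := by
  classical
  intro δ ε hδ hδε
  obtain ⟨s, hs⟩ : ∃ s : ℝ, s = (ε - δ) / 3 := ⟨_, rfl⟩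
  have hs0 : 0 < s := by rw [hs]; linarith
  obtain ⟨C2, hC2, h2⟩ := hAVG 2 s (by norm_num) hs0
  obtain ⟨C3, hC3, h3⟩ := Pool.Agent.Helper28.PC.N3 s hs0
  obtain ⟨C4, hC4, h4⟩ := count_BAD s hs0
  have hC30 : 0 < C3 := by linarith
  refine ⟨1 + 64 * C2 * C3 * C4, by positivity, ?_⟩
  intro e he
  set C : ℝ := 1 + 64 * C2 * C3 * C4 with hC
  have hC1 : 1 ≤ C := by
    have : 0 ≤ 64 * C2 * C3 * C4 := by positivity
    linarith
  have hC0 : 0 < C := by linarith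
  have heR : (1 : ℝ) ≤ e := by exact_mod_cast he
  have he0 : (0 : ℝ) < e := by linarith
  -- the pieces
  set Q : ℕ × ℕ → ℝ := fun p => ((2 ^ p.2 : ℕ) : ℝ) ^ 2 +
    (((2 ^ p.1 : ℕ) : ℝ) * ((2 ^ p.2 : ℕ) : ℝ)) ^ 3 / (e : ℝ) ^ 3 with hQ
  have hQ0 : ∀ p, 0 < Q p := fun p => by
    simp only [hQ]
    positivity
  set S : ℕ × ℕ → Finset ℕ := fun p => (Us e).filter fun l =>
    C / 64 * (e : ℝ) ^ ε * Q p < (N e 1 l 3 (2 ^ p.1) (2 ^ p.2) : ℝ) with hS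
  set L := Nat.clog 2 e + 1 with hL
  set T : Finset (ℕ × ℕ) := ((range L) ×ˢ (range L)).filter fun p => p.1 ≤ p.2 with hT
  have hcov : Bad C ε e ⊆ T.biUnion S := by
    intro l hl
    simp only [Bad, mem_filter] at hl
    obtain ⟨hlU, A, B, hA, hAB, hBe, hN⟩ := hl
    have hB : 1 ≤ B := le_trans hA hAB
    rw [mem_biUnion]
    refine ⟨(Nat.clog 2 A, Nat.clog 2 B), ?_, ?_⟩
    · simp only [hT, mem_filter, mem_product, mem_range]
      have h5 : Nat.clog 2 A ≤ Nat.clog 2 B := Nat.clog_mono_right 2 hAB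
      have h6 : Nat.clog 2 B ≤ Nat.clog 2 e := Nat.clog_mono_right 2 hBe
      omega
    · simp only [hS, mem_filter]
      refine ⟨hlU, ?_⟩
      have hA1 := clog_BAD A hA
      have hB1 := clog_BAD B hB
      have hA2 : ((2 ^ Nat.clog 2 A : ℕ) : ℝ) ≤ 2 * A := by exact_mod_cast hA1.2
      have hB2 : ((2 ^ Nat.clog 2 B : ℕ) : ℝ) ≤ 2 * B := by exact_mod_cast hB1.2
      have hNm : (N e 1 l 3 A B : ℝ) ≤ (N e 1 l 3 (2 ^ Nat.clog 2 A) (2 ^ Nat.clog 2 B) : ℝ) := by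
        exact_mod_cast N_mono_BAD e 1 l 3 hA1.1 hB1.1
      refine lt_of_le_of_lt ?_ (lt_of_lt_of_le hN hNm)
      have hAR : (0 : ℝ) ≤ A := Nat.cast_nonneg A
      have hBR : (0 : ℝ) ≤ B := Nat.cast_nonneg B
      have hQle : Q (Nat.clog 2 A, Nat.clog 2 B) ≤
          64 * ((B : ℝ) ^ 2 + ((A : ℝ) * B) ^ 3 / (e : ℝ) ^ 3) := by
        simp only [hQ]
        have e1 : ((2 ^ Nat.clog 2 B : ℕ) : ℝ) ^ 2 ≤ (2 * B) ^ 2 :=
          pow_le_pow_left₀ (by positivity) hB2 2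
        have e2 : (((2 ^ Nat.clog 2 A : ℕ) : ℝ) * ((2 ^ Nat.clog 2 B : ℕ) : ℝ)) ^ 3 ≤
            ((2 * A) * (2 * B)) ^ 3 :=
          pow_le_pow_left₀ (by positivity) (mul_le_mul hA2 hB2 (by positivity) (by positivity)) 3
        have e3 : (((2 ^ Nat.clog 2 A : ℕ) : ℝ) * ((2 ^ Nat.clog 2 B : ℕ) : ℝ)) ^ 3 / (e : ℝ) ^ 3 ≤
            ((2 * A) * (2 * B)) ^ 3 / (e : ℝ) ^ 3 := div_le_div_of_nonneg_right e2 (by positivity)
        have e4 : ((2 * (A : ℝ)) * (2 * B)) ^ 3 / (e : ℝ) ^ 3 =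
            64 * (((A : ℝ) * B) ^ 3 / (e : ℝ) ^ 3) := by ring
        nlinarith [sq_nonneg (B : ℝ)]
      calc C / 64 * (e : ℝ) ^ ε * Q (Nat.clog 2 A, Nat.clog 2 B) ≤
          C / 64 * (e : ℝ) ^ ε * (64 * ((B : ℝ) ^ 2 + ((A : ℝ) * B) ^ 3 / (e : ℝ) ^ 3)) :=
            mul_le_mul_of_nonneg_left hQle (by positivity)
        _ = C * (e : ℝ) ^ ε * ((B : ℝ) ^ 2 + ((A : ℝ) * B) ^ 3 / (e : ℝ) ^ 3) := by ring
  -- Markov for one piece
  have hpc : ∀ p ∈ T, ((S p).card : ℝ) ≤ 64 * C2 / C * ((e : ℝ) ^ (1 + s) / (e : ℝ) ^ ε) := by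
    intro p hp
    simp only [hT, mem_filter, mem_product, mem_range] at hp
    obtain ⟨⟨hp1, hp2⟩, hp3⟩ := hp
    have h2B : ((2 ^ p.2 : ℕ) : ℝ) ≤ 2 * e := by
      have h7 : 2 ^ p.2 ≤ 2 ^ Nat.clog 2 e := Nat.pow_le_pow_right (by norm_num) (by omega)
      have h8 := (clog_BAD e he).2
      exact_mod_cast le_trans h7 h8
    have h8 := h2 e (2 ^ p.1) (2 ^ p.2) he Nat.one_le_two_pow
      (Nat.pow_le_pow_right (by norm_num) hp3) h2B
    have h9 : ((S p).card : ℝ) * (C / 64 * (e : ℝ) ^ ε * Q p) ≤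
        ∑ l ∈ Us e, (N e 1 l 3 (2 ^ p.1) (2 ^ p.2) : ℝ) := by
      calc ((S p).card : ℝ) * (C / 64 * (e : ℝ) ^ ε * Q p)
          = ∑ l ∈ S p, (C / 64 * (e : ℝ) ^ ε * Q p) := by rw [sum_const, nsmul_eq_mul]
        _ ≤ ∑ l ∈ S p, (N e 1 l 3 (2 ^ p.1) (2 ^ p.2) : ℝ) := by
            refine sum_le_sum (fun l hl => ?_)
            simp only [hS, mem_filter] at hl
            exact hl.2.le
        _ ≤ ∑ l ∈ Us e, (N e 1 l 3 (2 ^ p.1) (2 ^ p.2) : ℝ) :=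
            sum_le_sum_of_subset_of_nonneg (filter_subset _ _) (fun _ _ _ => Nat.cast_nonneg _)
    have h10 : ((S p).card : ℝ) * (C / 64 * (e : ℝ) ^ ε * Q p) ≤
        C2 * (e : ℝ) ^ (1 + s) * Q p := le_trans h9 h8
    have hQp := hQ0 p
    have hεp : 0 < (e : ℝ) ^ ε := Real.rpow_pos_of_pos he0 _
    have h11 : ((S p).card : ℝ) * (C / 64 * (e : ℝ) ^ ε) ≤ C2 * (e : ℝ) ^ (1 + s) := by
      refine le_of_mul_le_mul_right ?_ hQp
      calc ((S p).card : ℝ) * (C / 64 * (e : ℝ) ^ ε) * Q p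
          = ((S p).card : ℝ) * (C / 64 * (e : ℝ) ^ ε * Q p) := by ring
        _ ≤ _ := h10
    rw [← le_div_iff₀ (by positivity)] at h11
    refine le_trans h11 (le_of_eq ?_)
    field_simp
  have hTc : (T.card : ℝ) ≤ C4 * (e : ℝ) ^ s := by
    have h12 : T.card ≤ L ^ 2 := by
      calc T.card ≤ ((range L) ×ˢ (range L)).card := card_le_card (filter_subset _ _)
        _ = L ^ 2 := by rw [card_product, card_range, sq]
    calc (T.card : ℝ) ≤ ((L : ℕ) : ℝ) ^ 2 := by exact_mod_cast h12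
      _ ≤ _ := h4 e he
  have hφ : (e : ℝ) ≤ C3 * (e : ℝ) ^ s * (Nat.totient e : ℝ) := by
    have h13 := Pool.Agent.Helper28.SP.LEVEL.le_totient_mul e he
    have h14 : τ e ≤ C3 * (e : ℝ) ^ s := h3 e he
    have hφ0 : (0 : ℝ) ≤ Nat.totient e := Nat.cast_nonneg _
    nlinarith
  have htot : ((Bad C ε e).card : ℝ) ≤ (C4 * (e : ℝ) ^ s) *
      (64 * C2 / C * ((e : ℝ) ^ (1 + s) / (e : ℝ) ^ ε)) := by
    have hεp : 0 < (e : ℝ) ^ ε := Real.rpow_pos_of_pos he0 _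
    have h1s : 0 < (e : ℝ) ^ (1 + s) := Real.rpow_pos_of_pos he0 _
    calc ((Bad C ε e).card : ℝ) ≤ ((T.biUnion S).card : ℝ) := by exact_mod_cast card_le_card hcov
      _ ≤ ∑ p ∈ T, ((S p).card : ℝ) := by exact_mod_cast card_biUnion_le
      _ ≤ ∑ p ∈ T, (64 * C2 / C * ((e : ℝ) ^ (1 + s) / (e : ℝ) ^ ε)) := sum_le_sum hpc
      _ = (T.card : ℝ) * (64 * C2 / C * ((e : ℝ) ^ (1 + s) / (e : ℝ) ^ ε)) := by
          rw [sum_const, nsmul_eq_mul]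
      _ ≤ _ := mul_le_mul_of_nonneg_right hTc (by positivity)
  have hpow : (e : ℝ) ^ s * ((e : ℝ) ^ (1 + s) / (e : ℝ) ^ ε) =
      (e : ℝ) * (e : ℝ) ^ (-s) * (e : ℝ) ^ (-δ) := by
    rw [← Real.rpow_sub he0, ← Real.rpow_add he0]
    nth_rewrite 2 [← Real.rpow_one (e : ℝ)]
    rw [← Real.rpow_add he0, ← Real.rpow_add he0]
    congr 1
    rw [hs]; ring
  have hs1 : (e : ℝ) ^ s * (e : ℝ) ^ (-s) = 1 := by
    rw [← Real.rpow_add he0, add_neg_cancel, Real.rpow_zero]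
  have hnegs : 0 < (e : ℝ) ^ (-s) := Real.rpow_pos_of_pos he0 _
  have hδp : 0 < (e : ℝ) ^ (-δ) := Real.rpow_pos_of_pos he0 _
  have hφ0 : (0 : ℝ) ≤ Nat.totient e := Nat.cast_nonneg _
  have h15 : (e : ℝ) * (e : ℝ) ^ (-s) ≤ C3 * (Nat.totient e : ℝ) := by
    calc (e : ℝ) * (e : ℝ) ^ (-s) ≤ (C3 * (e : ℝ) ^ s * (Nat.totient e : ℝ)) * (e : ℝ) ^ (-s) :=
          mul_le_mul_of_nonneg_right hφ hnegs.le
      _ = C3 * (Nat.totient e : ℝ) * ((e : ℝ) ^ s * (e : ℝ) ^ (-s)) := by ring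
      _ = C3 * (Nat.totient e : ℝ) := by rw [hs1, mul_one]
  calc ((Bad C ε e).card : ℝ) ≤ (C4 * (e : ℝ) ^ s) *
      (64 * C2 / C * ((e : ℝ) ^ (1 + s) / (e : ℝ) ^ ε)) := htot
    _ = 64 * C2 * C4 / C * ((e : ℝ) ^ s * ((e : ℝ) ^ (1 + s) / (e : ℝ) ^ ε)) := by ring
    _ = 64 * C2 * C4 / C * ((e : ℝ) * (e : ℝ) ^ (-s) * (e : ℝ) ^ (-δ)) := by rw [hpow]
    _ ≤ 64 * C2 * C4 / C * (C3 * (Nat.totient e : ℝ) * (e : ℝ) ^ (-δ)) :=
        mul_le_mul_of_nonneg_left (mul_le_mul_of_nonneg_right h15 hδp.le) (by positivity)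
    _ = (64 * C2 * C3 * C4 / C) * ((e : ℝ) ^ (-δ) * (Nat.totient e : ℝ)) := by ring
    _ ≤ C * ((e : ℝ) ^ (-δ) * (Nat.totient e : ℝ)) := by
        refine mul_le_mul_of_nonneg_right ?_ (by positivity)
        have : 64 * C2 * C3 * C4 / C ≤ 1 := by
          rw [div_le_one hC0]; linarith
        linarith
    _ = C * (e : ℝ) ^ (-δ) * (Nat.totient e : ℝ) := by ring

end Pool.Agent.Helper8.AL
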